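import Mathlib
import Pool.Agent.Helper92.PO.Stmts

/-!
# BOX: anchored polyominoes lie in a box
-/

set_option autoImplicit false

namespace Pool.Agent.Helper92.PO

/-- distance from the origin -/
def boxN (b : Cell) : ℕ := b.1.natAbs + b.2.natAbs

theorem box_adj (b c : Cell) (h : Adj b c) : boxN c ≤ boxN b + 1 := by
  unfold Adj at h
  unfold boxN
  have h1 : |b.1 - c.1| = ((b.1 - c.1).natAbs : ℤ) := Int.abs_eq_natAbs _
  have h2 : |b.2 - c.2| = ((b.2 - c.2).natAbs : ℤ) := Int.abs_eq_natAbs _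
  rw [h1, h2] at h
  omega

theorem box_path (P : Finset Cell) (h0 : ((0, 0) : Cell) ∈ P) (a : Cell)
    (h : Relation.ReflTransGen (fun x y => y ∈ P ∧ Adj x y) ((0, 0) : Cell) a) :
    ∀ i ≤ boxN a, ∃ b ∈ P, boxN b = i := by
  induction h with
  | refl =>
    intro i hi
    have h1 : boxN ((0, 0) : Cell) = 0 := rfl
    rw [h1] at hi
    exact ⟨(0, 0), h0, by rw [h1]; omega⟩
  | tail _ hbc ih =>
    intro i hi
    rename_i b c _
    have h2 := box_adj b c hbc.2
    by_cases h3 : i ≤ boxN b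
    · exact ih i h3
    · exact ⟨c, hbc.1, by omega⟩

theorem st_BOX : ST_BOX := by
  intro n P hP a ha
  obtain ⟨hc, hconn, h0, hanch⟩ := hP
  have h1 := box_path P h0 a (hconn (0, 0) h0 a ha)
  have h2 : Finset.range (boxN a + 1) ⊆ P.image boxN := by
    intro i hi
    obtain ⟨b, hb, hbi⟩ := h1 i (Nat.lt_succ_iff.1 (Finset.mem_range.1 hi))
    exact Finset.mem_image.2 ⟨b, hb, hbi⟩
  have h3 := (Finset.card_le_card h2).trans Finset.card_image_le
  rw [Finset.card_range, hc] at h3
  unfold boxN at h3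
  have h4 := hanch a ha
  refine ⟨?_, ?_, ?_, ?_⟩
  · rcases h4 with h4 | h4
    · exact h4.le
    · exact h4.1.ge
  all_goals omega

end Pool.Agent.Helper92.PO
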