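import Mathlib
import Pool.Agent.Helper92.PO.Stmts

/-!
# XIU: rows are determined by their labels
-/

set_option autoImplicit false

namespace Pool.Agent.Helper92.PO

/-- partial rows -/
def xiuX (n i : ℕ) : List Row := (List.range i).foldl (rowStep n) [[]]

theorem xiuX_zero (n : ℕ) : xiuX n 0 = [[]] := rfl

theorem xiuX_succ (n i : ℕ) : xiuX n (i + 1) = rowStep n (xiuX n i) i := by
  unfold xiuX
  rw [List.range_succ, List.foldl_append]
  rfl

theorem xiu_mem (n i : ℕ) (ξ : Row) : ξ ∈ xiuX n (i + 1) ↔ ξ ∈ xiuX n i ∨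
    ∃ ξ0 ∈ xiuX n i, ξ0.length < Nat.sqrt n ∧ ∃ v ∈ (labs n).tail, ξ = (i, v) :: ξ0 := by
  rw [xiuX_succ]
  unfold rowStep
  rw [List.mem_append, List.mem_flatMap]
  constructor
  · rintro (h | ⟨ξ0, h1, h2⟩)
    · exact Or.inl h
    · rw [List.mem_filter, decide_eq_true_eq] at h1
      obtain ⟨v, hv, hv2⟩ := List.mem_map.1 h2
      exact Or.inr ⟨ξ0, h1.1, h1.2, v, hv, hv2.symm⟩
  · rintro (h | ⟨ξ0, h1, h2, v, hv, hv2⟩)
    · exact Or.inl h
    · refine Or.inr ⟨ξ0, ?_, ?_⟩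
      · rw [List.mem_filter, decide_eq_true_eq]
        exact ⟨h1, h2⟩
      · exact List.mem_map.2 ⟨v, hv, hv2.symm⟩

theorem xiu_tail (n : ℕ) (v : Lab) (hv : v ∈ (labs n).tail) : v.1 ≠ 0 := by
  unfold labs at hv
  rw [List.tail_cons, List.mem_cons, List.mem_flatMap] at hv
  rcases hv with h | ⟨d, _, h⟩
  · rw [h]; exact Nat.one_ne_zero
  · simp only [List.mem_cons, List.not_mem_nil, or_false] at h
    rcases h with h | h | h | h <;> rw [h] <;> simp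

theorem xiu_labs (n : ℕ) (v : Lab) (hv : v ∈ labs n) : v = (0, 0) ∨ v ∈ (labs n).tail := by
  unfold labs at hv ⊢
  rw [List.mem_cons] at hv
  rw [List.tail_cons]
  exact hv

theorem xiu_keys (n : ℕ) : ∀ i, ∀ ξ ∈ xiuX n i, ∀ p ∈ ξ, p.1 < i := by
  intro i
  induction i with
  | zero =>
    intro ξ hξ p hp
    rw [xiuX_zero, List.mem_singleton] at hξ
    rw [hξ] at hp
    exact absurd hp List.not_mem_nil
  | succ i ih =>
    intro ξ hξ p hp
    rcases (xiu_mem n i ξ).1 hξ with h | ⟨ξ0, h1, _, v, _, h4⟩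
    · exact Nat.lt_succ_of_lt (ih ξ h p hp)
    · rw [h4, List.mem_cons] at hp
      rcases hp with hp | hp
      · rw [hp]; exact Nat.lt_succ_self i
      · exact Nat.lt_succ_of_lt (ih ξ0 h1 p hp)

theorem xiu_lk (ξ : Row) (k : ℕ) (h : ∀ p ∈ ξ, p.1 ≠ k) : lk ξ k = (0, 0) := by
  induction ξ with
  | nil => rfl
  | cons p t ih =>
    rw [lk, if_neg (h p List.mem_cons_self)]
    exact ih fun q hq => h q (List.mem_cons_of_mem p hq)

theorem xiu_lk_cons (ξ : Row) (i k : ℕ) (v : Lab) :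
    lk ((i, v) :: ξ) k = if i = k then v else lk ξ k := rfl

theorem xiu_lk_top (n i : ℕ) (ξ : Row) (hξ : ξ ∈ xiuX n i) : lk ξ i = (0, 0) :=
  xiu_lk ξ i fun p hp => (xiu_keys n i ξ hξ p hp).ne

theorem xiu_uniq (n : ℕ) : ∀ i, ∀ ξ ∈ xiuX n i, ∀ ξ' ∈ xiuX n i,
    (∀ k < i, lk ξ k = lk ξ' k) → ξ = ξ' := by
  intro i
  induction i with
  | zero =>
    intro ξ hξ ξ' hξ' _
    rw [xiuX_zero, List.mem_singleton] at hξ hξ'
    rw [hξ, hξ']
  | succ i ih =>
    intro ξ hξ ξ' hξ' h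
    rcases (xiu_mem n i ξ).1 hξ with h1 | ⟨ξ0, h1, _, v, h3, h4⟩
    · rcases (xiu_mem n i ξ').1 hξ' with h1' | ⟨ξ0', h1', _, v', h3', h4'⟩
      · exact ih ξ h1 ξ' h1' fun k hk => h k (Nat.lt_succ_of_lt hk)
      · exfalso
        have h5 := h i (Nat.lt_succ_self i)
        rw [xiu_lk_top n i ξ h1, h4', xiu_lk_cons, if_pos rfl] at h5
        exact xiu_tail n v' h3' (by rw [← h5])
    · rcases (xiu_mem n i ξ').1 hξ' with h1' | ⟨ξ0', h1', _, v', h3', h4'⟩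
      · exfalso
        have h5 := h i (Nat.lt_succ_self i)
        rw [xiu_lk_top n i ξ' h1', h4, xiu_lk_cons, if_pos rfl] at h5
        exact xiu_tail n v h3 (by rw [h5])
      · have h5 := h i (Nat.lt_succ_self i)
        rw [h4, h4', xiu_lk_cons, xiu_lk_cons, if_pos rfl, if_pos rfl] at h5
        have h6 : ξ0 = ξ0' := by
          refine ih ξ0 h1 ξ0' h1' fun k hk => ?_
          have h7 := h k (Nat.lt_succ_of_lt hk)
          rw [h4, h4', xiu_lk_cons, xiu_lk_cons, if_neg (ne_of_gt hk), if_neg (ne_of_gt hk)] at h7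
          exact h7
        rw [h4, h4', h5, h6]

theorem xiu_ex (n : ℕ) (ζ : ℕ → Lab) (hζ : ∀ k, ζ k ∈ labs n) : ∀ i,
    ((Finset.range i).filter fun k => (ζ k).1 ≠ 0).card ≤ Nat.sqrt n →
    ∃ ξ ∈ xiuX n i, (∀ k < i, lk ξ k = ζ k) ∧
      ξ.length = ((Finset.range i).filter fun k => (ζ k).1 ≠ 0).card := by
  intro i
  induction i with
  | zero =>
    intro _
    refine ⟨[], by rw [xiuX_zero]; exact List.mem_singleton.2 rfl, fun k hk => absurd hk (Nat.not_lt_zero k), ?_⟩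
    simp
  | succ i ih =>
    intro hc
    rw [Finset.range_add_one, Finset.filter_insert] at hc ⊢
    rcases xiu_labs n (ζ i) (hζ i) with h0 | h0
    · have h1 : ¬ (ζ i).1 ≠ 0 := by rw [h0]; simp
      rw [if_neg h1] at hc ⊢
      obtain ⟨ξ, hξ, h2, h3⟩ := ih hc
      refine ⟨ξ, (xiu_mem n i ξ).2 (Or.inl hξ), ?_, h3⟩
      intro k hk
      rcases Nat.lt_succ_iff_lt_or_eq.1 hk with h4 | h4
      · exact h2 k h4
      · rw [h4, xiu_lk_top n i ξ hξ, h0]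
    · have h1 : (ζ i).1 ≠ 0 := xiu_tail n _ h0
      have h5 : i ∉ (Finset.range i).filter fun k => (ζ k).1 ≠ 0 := by simp
      rw [if_pos h1, Finset.card_insert_of_notMem h5] at hc ⊢
      obtain ⟨ξ, hξ, h2, h3⟩ := ih (by omega)
      refine ⟨(i, ζ i) :: ξ, (xiu_mem n i _).2 (Or.inr ⟨ξ, hξ, by omega, ζ i, h0, rfl⟩), ?_, ?_⟩
      · intro k hk
        rw [xiu_lk_cons]
        rcases Nat.lt_succ_iff_lt_or_eq.1 hk with h4 | h4
        · rw [if_neg (ne_of_gt h4)]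
          exact h2 k h4
        · rw [h4, if_pos rfl]
      · rw [List.length_cons, h3]

theorem st_XIU : ST_XIU := by
  intro n ζ hζ hc
  obtain ⟨ξ, hξ, h2, _⟩ := xiu_ex n ζ hζ (KK n) hc
  refine ⟨ξ, ⟨hξ, h2⟩, ?_⟩
  rintro ξ' ⟨hξ', h2'⟩
  exact xiu_uniq n (KK n) ξ' hξ' ξ hξ fun k hk => by rw [h2' k hk, h2 k hk]

end Pool.Agent.Helper92.PO
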